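import Pool.Agent.P.MP_24d2d6_an.Concrete

/-!
Q1 has a negative answer, already on a separable Hilbert space, over the reals and the complexes.
-/

open Pool.Agent.P.MP_24d2d6_an

namespace Pool.Agent.P.MP_24d2d6_an.Old.Counterexample

theorem result (𝕜 : Type) [RCLike 𝕜] :
    ∃ (X : Type) (_ : NormedAddCommGroup X) (_ : InnerProductSpace 𝕜 X) (_ : CompleteSpace X)
      (_ : TopologicalSpace.SeparableSpace X) (T : X →L[𝕜] X),
      IsQuasiRigid T ∧ ∀ Λ : X →L[𝕜] X, ∃ h : X →L[𝕜] X,
        MemOmega T h ∧ ¬ MemSOTClosureOrbit T Λ h := by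
  let b : HilbertBasis J 𝕜 (lp (fun _ : J => 𝕜) 2) := default
  have := separable_of_basis b
  obtain ⟨T, hT⟩ := block_counterexample b
  exact ⟨WithLp 2 (lp (fun _ : J => 𝕜) 2 × lp (fun _ : J => 𝕜) 2), inferInstance, inferInstance,
    inferInstance,
    (WithLp.prodContinuousLinearEquiv 2 𝕜 _ _).symm.surjective.denseRange.separableSpace
      (WithLp.prodContinuousLinearEquiv 2 𝕜 _ _).symm.continuous, T, hT⟩

end Pool.Agent.P.MP_24d2d6_an.Old.Counterexample
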